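import Pool.Agent.Results.MP_128071_co.SmallDeficits

/-!
# The smallest graceful tree containing a given tree: two leaves at each non-leaf suffice if the
non-leaves form a large tree with few leaves and with nearly equal colour classes

For every `l` there is an `N` such that the following holds. Let `T` be a tree with at least `N`
non-leaves such that the tree of the non-leaves has at most `l` leaves and its two colour classes
differ in size by at most one. If every non-leaf is adjacent to at least two leaves, in arbitrary
numbers, and one of the two colour classes of `T` has an even number of vertices, then `T` is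
graceful.
-/

set_option autoImplicit false

namespace Pool.Agent.Results.MP_128071_co.EqualClasses

open Pool.Agent.Results.MP_128071_co.LargeCore

/-- **Two leaves at each non-leaf, nearly equal classes.** For every `l` there is an `N` such that
the following holds for every finite tree `T` with at least `N` non-leaves: if the tree of the
non-leaves has at most `l` leaves, if every non-leaf is adjacent to at least two leaves, if the
numbers of the non-leaves of the two colours differ by at most one, and if one of the two colour
classes of `T` has an even number of vertices, then `T` is graceful and `γ(T) = |E(T)|`. -/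
theorem result (l : ℕ) : ∃ N : ℕ, ∀ (V : Type) [Fintype V] (T : SimpleGraph V), T.IsTree →
    N ≤ (inner T).ncard → coreLeaves T ≤ l → (∀ x ∈ inner T, 2 ≤ leaves T x) →
    (∃ c : V → Bool, Proper T c ∧ innerClass T c true ≤ innerClass T c false + 1 ∧
      innerClass T c false ≤ innerClass T c true + 1) →
    (∃ (c : V → Bool) (b : Bool), Proper T c ∧ Even {v | c v = b}.ncard) →
    Graceful T ∧ T.edgeSet.ncard ∈ gracefulSizes T ∧ gamma T = T.edgeSet.ncard := by
  obtain ⟨N, hN⟩ := Pool.Agent.Results.MP_128071_co.SmallDeficits.exact l
  refine ⟨N, ?_⟩
  intro V _ T hT hNT hl h2 hbal hpar
  obtain ⟨c, hc, h3, h4⟩ := hbal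
  have hg : Graceful T := by
    rcases le_total (innerClass T c false) (innerClass T c true) with h | h
    · refine hN V T hT hNT hl c true hc h (fun x hx => ?_) hpar
      unfold Pool.Agent.Results.MP_128071_co.SmallDeficits.need
      rw [if_pos (show innerClass T c true ≤ innerClass T c (!true) + 1 from h3)]
      exact h2 x hx
    · refine hN V T hT hNT hl c false hc h (fun x hx => ?_) hpar
      unfold Pool.Agent.Results.MP_128071_co.SmallDeficits.need
      rw [if_pos (show innerClass T c false ≤ innerClass T c (!false) + 1 from h4)]
      exact h2 x hx
  have hm : T.edgeSet.ncard ∈ gracefulSizes T :=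
    ⟨V, inferInstance, T, hT, hg, SimpleGraph.IsContained.refl T, rfl⟩
  exact ⟨hg, hm, le_antisymm (Nat.sInf_le hm) (le_of_mem (Nat.sInf_mem ⟨_, hm⟩))⟩

end Pool.Agent.Results.MP_128071_co.EqualClasses
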