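import Pool.Agent.Y790.TG.Fin
import Pool.Agent.Run7.h419.GW.Main2

/-!
# The smallest graceful tree containing a given tree: `γ(T) = |E(T)|` if the non-leaves form a large
tree with few leaves and have at least four leaves each

For every `l` there is an `N` such that the following holds. Let `T` be a tree with at least `N`
non-leaves such that the tree of the non-leaves has at most `l` leaves. If every non-leaf is adjacent
to at least four leaves (three suffice for the non-leaves of the larger class), in arbitrary
numbers, and one of the two colour classes of `T` has an even number of vertices, then `T` is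
graceful. The number four does not depend on `l`.
-/

set_option autoImplicit false

namespace Pool.Agent.Results.MP_128071_co.LargeCore

open Finset

/-- A graph with `m` edges is graceful if there is an injective map `f` of the vertices to
`{0, 1, …, m}` such that the edge labels `|f u - f v|` are pairwise distinct. -/
def Graceful {V : Type} (T : SimpleGraph V) : Prop :=
  ∃ f : V → ℕ, Function.Injective f ∧ (∀ v, f v ≤ T.edgeSet.ncard) ∧
    ∀ u v u' v', T.Adj u v → T.Adj u' v' →
      Int.natAbs ((f u : ℤ) - (f v : ℤ)) = Int.natAbs ((f u' : ℤ) - (f v' : ℤ)) →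
      s(u, v) = s(u', v')

/-- The numbers of edges of the finite graceful trees which have a subgraph isomorphic to `T`. -/
def gracefulSizes {V : Type} (T : SimpleGraph V) : Set ℕ :=
  {k | ∃ (W : Type) (_ : Fintype W) (T' : SimpleGraph W),
    T'.IsTree ∧ Graceful T' ∧ T.IsContained T' ∧ T'.edgeSet.ncard = k}

/-- `γ(T)`: the least number of edges of a graceful tree which has a subgraph isomorphic to `T`. -/
noncomputable def gamma {V : Type} (T : SimpleGraph V) : ℕ := sInf (gracefulSizes T)

/-- the vertices which are not leaves -/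
def inner {V : Type} (T : SimpleGraph V) : Set V := {x | 2 ≤ (T.neighborSet x).ncard}

/-- the tree of the non-leaves -/
def core {V : Type} (T : SimpleGraph V) : SimpleGraph (inner T) := T.induce (inner T)

/-- the number of the leaves adjacent to `x` -/
noncomputable def leaves {V : Type} (T : SimpleGraph V) (x : V) : ℕ :=
  {y | T.Adj x y ∧ y ∉ inner T}.ncard

/-- `f` is an `α`-labelling of `G` with the threshold `θ`: a graceful labelling such that exactly
one end of every edge has a label less than `θ`. -/
def IsAlpha {W : Type} (G : SimpleGraph W) (θ : ℕ) (f : W → ℕ) : Prop :=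
  Function.Injective f ∧ (∀ x, f x ≤ G.edgeSet.ncard) ∧
    (∀ u v u' v', G.Adj u v → G.Adj u' v' →
      Int.natAbs ((f u : ℤ) - (f v : ℤ)) = Int.natAbs ((f u' : ℤ) - (f v' : ℤ)) →
      s(u, v) = s(u', v')) ∧
    ∀ u v, G.Adj u v → (f u < θ ↔ ¬ f v < θ)

/-- `c` is a proper colouring of `T` with the two colours `true` and `false` -/
def Proper {V : Type} (T : SimpleGraph V) (c : V → Bool) : Prop := ∀ u v, T.Adj u v → c u ≠ c v

/-- The number of the non-leaves of colour `b`. -/
noncomputable def innerClass {V : Type} (T : SimpleGraph V) (c : V → Bool) (b : Bool) : ℕ :=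
  {x | x ∈ inner T ∧ c x = b}.ncard

theorem le_of_mem {V : Type} {T : SimpleGraph V} {k : ℕ}
    (hk : k ∈ gracefulSizes T) : T.edgeSet.ncard ≤ k := by
  classical
  obtain ⟨W, _, T', _, _, ⟨φ⟩, rfl⟩ := hk
  have hinj : Function.Injective φ := φ.injective
  have h1 : Sym2.map φ '' T.edgeSet ⊆ T'.edgeSet := by
    rintro _ ⟨e, he, rfl⟩
    induction e using Sym2.ind with
    | _ x y =>
      rw [Sym2.map_mk, SimpleGraph.mem_edgeSet]
      exact φ.toHom.map_adj ((SimpleGraph.mem_edgeSet T).1 he)
  calc T.edgeSet.ncard = (Sym2.map φ '' T.edgeSet).ncard :=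
        (Set.ncard_image_of_injective _ (Sym2.map.injective hinj)).symm
    _ ≤ T'.edgeSet.ncard := Set.ncard_le_ncard h1 (Set.toFinite _)

/-- two proper colourings of a connected graph are equal or opposite -/
theorem two_colourings {W : Type} {G : SimpleGraph W} (hG : G.Connected) (col : W → Bool)
    (b : Bool) (hc : ∀ u v, G.Adj u v → col u ≠ col v) (P : W → Prop)
    (hP : ∀ u v, G.Adj u v → (P u ↔ ¬ P v)) :
    (∀ x, col x = b ↔ P x) ∨ (∀ x, col x = b ↔ ¬ P x) := by
  have h1 : ∀ u v, G.Adj u v → ((col u = b ↔ P u) ↔ (col v = b ↔ P v)) := by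
    intro u v h
    have h2 := hc u v h
    have h3 := hP u v h
    have h4 : col u = b ↔ ¬ col v = b := by
      revert h2
      cases col u <;> cases col v <;> cases b <;> simp
    tauto
  have h2 : ∀ u v, G.Walk u v → ((col u = b ↔ P u) ↔ (col v = b ↔ P v)) := by
    intro u v w
    induction w with
    | nil => rfl
    | cons h _ ih => exact (h1 _ _ h).trans ih
  obtain ⟨x0⟩ := hG.nonempty
  by_cases h3 : (col x0 = b ↔ P x0)
  · left
    intro x
    obtain ⟨w⟩ := hG.preconnected x0 x
    exact (h2 _ _ w).1 h3
  · right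
    intro x
    obtain ⟨w⟩ := hG.preconnected x0 x
    have := (h2 _ _ w).not.1 h3
    tauto

/-- an `α`-labelling whose lower class is a given class -/
theorem alpha_both {W : Type} {G : SimpleGraph W} (hG : G.Connected) {θ : ℕ} {f : W → ℕ}
    (hα : IsAlpha G θ f) (col : W → Bool) (b : Bool) (hcol : ∀ u v, G.Adj u v → col u ≠ col v) :
    ∃ (θ : ℕ) (f : W → ℕ), IsAlpha G θ f ∧ ∀ x, col x = b ↔ f x < θ := by
  obtain ⟨f1, f2, f3, f4⟩ := hα
  rcases two_colourings hG col b hcol (fun x => f x < θ) f4 with h | h
  · exact ⟨θ, f, ⟨f1, f2, f3, f4⟩, h⟩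
  · refine ⟨G.edgeSet.ncard + 1 - θ, fun x => G.edgeSet.ncard - f x, ⟨?_, ?_, ?_, ?_⟩, ?_⟩
    · intro x y hxy
      have hx := f2 x
      have hy := f2 y
      simp only at hxy
      exact f1 (by omega)
    · intro x
      exact Nat.sub_le _ _
    · intro u v u' v' huv huv' he
      have h1 := f2 u
      have h2 := f2 v
      have h3 := f2 u'
      have h4 := f2 v'
      refine f3 u v u' v' huv huv' ?_
      simp only at he
      omega
    · intro u v huv
      have h1 := f2 u
      have h2 := f2 v
      have h3 := f4 u v huv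
      show G.edgeSet.ncard - f u < G.edgeSet.ncard + 1 - θ ↔
        ¬ G.edgeSet.ncard - f v < G.edgeSet.ncard + 1 - θ
      omega
    · intro x
      have hx := f2 x
      rw [h x]
      show ¬ f x < θ ↔ G.edgeSet.ncard - f x < G.edgeSet.ncard + 1 - θ
      omega

theorem count {V : Type} [Finite V] {T : SimpleGraph V} (f : inner T → ℕ)
    (f1 : Function.Injective f) (k : ℕ) (hk : ∀ t, t < k ↔ ∃ x, f x = t) (Q : ℕ → Prop)
    (R : Finset ℕ) (hR : ∀ t, t ∈ R ↔ t < k ∧ Q t) (P : V → Prop)
    (hP : ∀ x : inner T, P x ↔ Q (f x)) : {x | x ∈ inner T ∧ P x}.ncard = R.card := by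
  rw [← Set.ncard_coe_finset]
  refine Set.ncard_congr (fun x hx => f ⟨x, hx.1⟩) ?_ ?_ ?_
  · intro x hx
    rw [Finset.mem_coe, hR]
    exact ⟨(hk _).2 ⟨_, rfl⟩, (hP ⟨x, hx.1⟩).1 hx.2⟩
  · intro x y hx hy h
    exact congrArg Subtype.val (f1 h)
  · intro t ht
    rw [Finset.mem_coe, hR] at ht
    obtain ⟨⟨x, hx⟩, hxt⟩ := (hk t).1 ht.1
    exact ⟨x, ⟨hx, (hP ⟨x, hx⟩).2 (by rw [hxt]; exact ht.2)⟩, hxt⟩

/-- The number of the leaves of the tree of the non-leaves. -/
noncomputable def coreLeaves {V : Type} (T : SimpleGraph V) : ℕ :=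
  {x : inner T | ((core T).neighborSet x).ncard = 1}.ncard

/-- **Large trees of non-leaves with few leaves.** For every `l` there is an `N` such that the
following holds for every finite tree `T` with at least `N` non-leaves: if the tree of the non-leaves
has at most `l` leaves, if for some colour `b` of a proper colouring at least half of the non-leaves
have the colour `b`, the non-leaves of colour `b` are adjacent to at least three leaves each and the
other non-leaves to at least four leaves each, and if one of the two colour classes of `T` has an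
even number of vertices, then `T` is graceful and `γ(T) = |E(T)|`: `T` is a smallest graceful tree
containing `T`. -/
theorem result (l : ℕ) : ∃ N : ℕ, ∀ (V : Type) [Fintype V] (T : SimpleGraph V), T.IsTree →
    N ≤ (inner T).ncard → coreLeaves T ≤ l →
    (∃ (c : V → Bool) (b : Bool), Proper T c ∧ innerClass T c (!b) ≤ innerClass T c b ∧
      (∀ x ∈ inner T, c x = b → 3 ≤ leaves T x) ∧ ∀ x ∈ inner T, c x ≠ b → 4 ≤ leaves T x) →
    (∃ (c : V → Bool) (b : Bool), Proper T c ∧ Even {v | c v = b}.ncard) →
    Graceful T ∧ T.edgeSet.ncard ∈ gracefulSizes T ∧ gamma T = T.edgeSet.ncard := by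
  classical
  obtain ⟨N₀, hN₀⟩ := Pool.Agent.Y790.TG.allTreeG l
  refine ⟨max N₀ (5 * l + 10), ?_⟩
  intro V _ T hT hN hl hlv hpar
  have hN1 : N₀ ≤ (inner T).ncard := le_trans (le_max_left _ _) hN
  have hN2 : 5 * l + 10 ≤ (inner T).ncard := le_trans (le_max_right _ _) hN
  have hne : (inner T).Nonempty := by
    rw [Set.nonempty_iff_ne_empty]
    intro h
    rw [h, Set.ncard_empty] at hN2
    omega
  have hG : (core T).IsTree := Pool.Agent.H336.GW.induce_tree hT hne
  have hFin : Fintype (inner T) := Fintype.ofFinite _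
  have hke : (core T).edgeSet.ncard + 1 = Fintype.card (inner T) :=
    Pool.Agent.H336.GW.edges_card hG
  have hcd : (inner T).ncard = Fintype.card (inner T) := by
    rw [← Nat.card_eq_fintype_card]
    rfl
  obtain ⟨f₀, p₀, g1, g2, g3, g4⟩ := hN₀ (inner T) (core T) hG hl (by rw [← hcd]; exact hN1)
  have hα₀ : IsAlpha (core T) p₀ f₀ := by
    refine ⟨g1, g2, ?_, ?_⟩
    · refine Pool.Agent.H336.GW.distinct_of_all (fun x => (f₀ x : ℤ)) _ rfl ?_ ?_
      · intro u v h
        have h1 := g2 u
        have h2 := g2 v
        have h3 : f₀ u ≠ f₀ v := fun h3 => h.ne (g1 h3)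
        constructor <;> omega
      · intro j h1 h2
        have h3 : j ∈ Set.Icc 1 (core T).edgeSet.ncard := ⟨h1, h2⟩
        rw [← g3] at h3
        obtain ⟨u, v, h, hj⟩ := h3
        exact ⟨u, v, h, hj.symm⟩
    · intro u v h
      have := g4 u v h
      omega
  obtain ⟨col, b0, hcol, hev⟩ := hpar
  obtain ⟨θ, f, ⟨f1, f2, f3, f4⟩, hcf⟩ := alpha_both hG.1 hα₀ (fun x => col x) b0
    (fun u v h => hcol u v h)
  -- an edge of the tree of the non-leaves
  obtain ⟨x0, y0, hxy0⟩ : ∃ x0 y0 : inner T, (core T).Adj x0 y0 := by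
    have h1 : (core T).edgeSet.Nonempty := by
      rw [← Set.ncard_pos (Set.toFinite _)]
      omega
    obtain ⟨e, he⟩ := h1
    induction e using Sym2.ind with
    | _ u v => exact ⟨u, v, he⟩
  set k := Fintype.card (inner T) with hkdef
  have f2' : ∀ x, f x < k := fun x => by have := f2 x; omega
  have fsur : ∀ t < k, ∃ x, f x = t := by
    intro t ht
    have h1 := Finset.surjOn_of_injOn_of_card_le (s := (Finset.univ : Finset (inner T)))
      (t := Finset.range k) f (fun x _ => by simpa using f2' x) (f1.injOn) (by
        rw [Finset.card_range, Finset.card_univ])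
    obtain ⟨x, -, hx⟩ := h1 (show t ∈ ((Finset.range k : Finset ℕ) : Set ℕ) by simpa using ht)
    exact ⟨x, hx⟩
  have hk' : ∀ t, t < k ↔ ∃ x, f x = t := by
    intro t
    constructor
    · exact fsur t
    · rintro ⟨x, rfl⟩
      exact f2' x
  have hθ : 1 ≤ θ ∧ θ < k := by
    have h3 := f4 x0 y0 hxy0
    have h4 := f2' x0
    have h5 := f2' y0
    omega
  obtain ⟨a, rfl⟩ : ∃ a, θ = a + 1 := ⟨θ - 1, by omega⟩
  obtain ⟨q, hq⟩ : ∃ q, k = a + 1 + q + 1 := ⟨k - a - 2, by omega⟩
  have himb := Pool.Agent.Run7.h419.GW.imbalance hG f a q f1 (by rw [← hq]; exact hk') f4 hq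
  have hl' : {x : inner T | ((core T).neighborSet x).ncard = 1}.ncard ≤ l := hl
  obtain ⟨c, b, hc, hAB, h3, h4⟩ := hlv
  have hneg : ∀ β γ : Bool, β = !γ ↔ ¬ β = γ := by decide
  have hg : Graceful T := by
    refine @Pool.Agent.Run7.h419.GW.main2 V _ T hT ⟨x0, y0, hxy0, x0.2, y0.2⟩ hFin f a q f1 f2 f4
      f3 hq ?_ ?_ (Or.inr ⟨col, b0, hcol, hcf, hev⟩)
    · intro c₁ d₁ c₁' hc1 hd1 hc0 hd0 hcc
      have k1 : ∀ i, 1 ≤ i → c₁' i = c₁ i := by
        intro i hi
        rcases hcc with rfl | rfl
        · rfl
        · rw [Function.update_of_ne (by omega)]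
      have k0 : c₁ 0 ≤ c₁' 0 + 1 := by
        rcases hcc with rfl | rfl
        · omega
        · rw [Function.update_self]
          omega
      have k2 : ∀ i, a < i → c₁' i = 0 := by
        intro i hi
        rw [k1 i (by omega)]
        exact hc0 i hi
      rcases two_colourings hG.1 (fun x => c x) b (fun u v h => hc u v h)
        (fun x => f x < a + 1) f4 with h | h
      · -- the lower class has colour `b`
        have e1 : innerClass T c b = a + 1 := by
          unfold innerClass
          rw [count f f1 k hk' (fun t => t < a + 1) (Finset.range (a + 1)) (fun t => by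
            rw [Finset.mem_range]; omega) (fun v => c v = b) h, Finset.card_range]
        have e2 : innerClass T c (!b) = q + 1 := by
          unfold innerClass
          rw [count f f1 k hk' (fun t => ¬ t < a + 1) (Finset.Ico (a + 1) (a + 1 + (q + 1)))
            (fun t => by rw [Finset.mem_Ico]; omega) (fun v => c v = !b) (fun x => by
              rw [hneg, h x]), Nat.card_Ico]
          omega
        have m1 : ∀ i ≤ a, 3 ≤ c₁ i := by
          intro i hi
          obtain ⟨x, hx, hx'⟩ := hc1 i hi
          rw [hx']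
          exact h3 x x.2 ((h x).2 (by omega))
        have m2 : ∀ i ≤ q, 4 ≤ d₁ i := by
          intro i hi
          obtain ⟨x, hx, hx'⟩ := hd1 i hi
          rw [hx']
          exact h4 x x.2 (fun hh => by
            have := (h x).1 hh
            omega)
        have n1 := m1 0 (Nat.zero_le _)
        have n2 := m2 0 (Nat.zero_le _)
        exact Pool.Agent.Run7.h419.GW.threehalves (by omega) (by omega) (by omega) (by omega)
          (by omega) k2 hd0 (by omega) (by omega)
          (fun i hi hi' => by rw [k1 i hi]; exact m1 i hi') (fun i _ hi' => m2 i hi')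
      · have e1 : innerClass T c b = q + 1 := by
          unfold innerClass
          rw [count f f1 k hk' (fun t => ¬ t < a + 1) (Finset.Ico (a + 1) (a + 1 + (q + 1)))
            (fun t => by rw [Finset.mem_Ico]; omega) (fun v => c v = b) h, Nat.card_Ico]
          omega
        have e2 : innerClass T c (!b) = a + 1 := by
          unfold innerClass
          rw [count f f1 k hk' (fun t => t < a + 1) (Finset.range (a + 1)) (fun t => by
            rw [Finset.mem_range]; omega) (fun v => c v = !b) (fun x => by
              rw [hneg, h x, not_not]), Finset.card_range]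
        have m1 : ∀ i ≤ a, 4 ≤ c₁ i := by
          intro i hi
          obtain ⟨x, hx, hx'⟩ := hc1 i hi
          rw [hx']
          exact h4 x x.2 (fun hh => by
            have := (h x).1 hh
            omega)
        have m2 : ∀ i ≤ q, 3 ≤ d₁ i := by
          intro i hi
          obtain ⟨x, hx, hx'⟩ := hd1 i hi
          rw [hx']
          exact h3 x x.2 ((h x).2 (by omega))
        have n1 := m1 0 (Nat.zero_le _)
        have n2 := m2 0 (Nat.zero_le _)
        exact (Pool.Agent.Run7.h419.GW.threehalves (by omega) (by omega) (by omega) (by omega)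
          (by omega) hd0 k2 (by omega) (by omega)
          (fun i _ hi' => m2 i hi') (fun i hi hi' => by rw [k1 i hi]; exact m1 i hi')).mirror
    · intro x
      by_cases hx : c x = b
      · exact le_trans (by norm_num) (h3 x x.2 hx)
      · exact le_trans (by norm_num) (h4 x x.2 hx)
  have hm : T.edgeSet.ncard ∈ gracefulSizes T :=
    ⟨V, inferInstance, T, hT, hg, SimpleGraph.IsContained.refl T, rfl⟩
  exact ⟨hg, hm, le_antisymm (Nat.sInf_le hm) (le_of_mem (Nat.sInf_mem ⟨_, hm⟩))⟩

end Pool.Agent.Results.MP_128071_co.LargeCore
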