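import Pool.Agent.Run7.h419.GW.Add

/-!
# The smallest graceful tree containing a given tree: leaf deficits with absolute constants

For every `l` there is an `N` such that the following holds for every finite tree `T` with at least
`N` non-leaves such that the tree of the non-leaves has at most `l` leaves. Let `need x = 2` for all
non-leaves `x` if the numbers of the non-leaves in the two colour classes differ by at most `1`, and
otherwise `need x = 3` for the non-leaves in the larger class and `need x = 4` for the other ones.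
Then `γ(T)` is at most `|E(T)| + 1` plus the sum of the truncated differences
`need x - (number of the leaves at x)`.
-/

set_option autoImplicit false

namespace Pool.Agent.Results.MP_128071_co.SmallDeficits

open Finset
open Pool.Agent.Results.MP_128071_co.LargeCore
open Pool.Agent.Run7.h419.GW.Add (addLeaves)

/-- The number of leaves needed at a non-leaf `x`, for the proper colouring `c` such that at least
half of the non-leaves have the colour `b`. -/
noncomputable def need {V : Type} (T : SimpleGraph V) (c : V → Bool) (b : Bool) (x : V) : ℕ :=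
  if innerClass T c b ≤ innerClass T c (!b) + 1 then 2 else if c x = b then 3 else 4

open Classical in
/-- The numbers of the new leaves: `need x` minus the number of the leaves at `x` (truncated at `0`)
at every non-leaf `x`, and `ε` further ones at the vertex `x₀`. -/
noncomputable def extra {V : Type} (T : SimpleGraph V) (c : V → Bool) (b : Bool) (x₀ : V) (ε : ℕ)
    (x : V) : ℕ :=
  if x ∈ inner T then need T c b x - leaves T x + (if x = x₀ then ε else 0) else 0

/-- the case without deficits -/
theorem exact (l : ℕ) : ∃ N : ℕ, ∀ (V : Type) [Fintype V] (T : SimpleGraph V), T.IsTree →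
    N ≤ (inner T).ncard → coreLeaves T ≤ l →
    ∀ (c : V → Bool) (b : Bool), Proper T c → innerClass T c (!b) ≤ innerClass T c b →
    (∀ x ∈ inner T, need T c b x ≤ leaves T x) →
    (∃ (c : V → Bool) (b : Bool), Proper T c ∧ Even {v | c v = b}.ncard) →
    Graceful T := by
  classical
  obtain ⟨N₀, hN₀⟩ := Pool.Agent.Y790.TG.allTreeG l
  obtain ⟨N₁, hN₁⟩ := Pool.Agent.Results.MP_128071_co.LargeCore.result l
  refine ⟨max (max N₀ N₁) 2, ?_⟩
  intro V _ T hT hN hl c b hc hcl hneed hpar
  have hN0 : N₀ ≤ (inner T).ncard := le_trans (le_trans (le_max_left _ _) (le_max_left _ _)) hN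
  have hN1 : N₁ ≤ (inner T).ncard := le_trans (le_trans (le_max_right _ _) (le_max_left _ _)) hN
  have hN2 : 2 ≤ (inner T).ncard := le_trans (le_max_right _ _) hN
  by_cases hbal : innerClass T c b ≤ innerClass T c (!b) + 1
  · have hne : (inner T).Nonempty := by
      rw [Set.nonempty_iff_ne_empty]
      intro h
      rw [h, Set.ncard_empty] at hN2
      omega
    have hG : (core T).IsTree := Pool.Agent.H336.GW.induce_tree hT hne
    have hFin : Fintype (inner T) := Fintype.ofFinite _
    have hke : (core T).edgeSet.ncard + 1 = Fintype.card (inner T) :=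
      Pool.Agent.H336.GW.edges_card hG
    have hcd : (inner T).ncard = Fintype.card (inner T) := by
      rw [← Nat.card_eq_fintype_card]
      rfl
    obtain ⟨f₀, p₀, g1, g2, g3, g4⟩ := hN₀ (inner T) (core T) hG hl (by rw [← hcd]; exact hN0)
    have hα₀ : IsAlpha (core T) p₀ f₀ := by
      refine ⟨g1, g2, ?_, ?_⟩
      · refine Pool.Agent.H336.GW.distinct_of_all (fun x => (f₀ x : ℤ)) _ rfl ?_ ?_
        · intro u v h
          have h1 := g2 u
          have h2 := g2 v
          have h3 : f₀ u ≠ f₀ v := fun h3 => h.ne (g1 h3)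
          constructor <;> omega
        · intro j h1 h2
          have h3 : j ∈ Set.Icc 1 (core T).edgeSet.ncard := ⟨h1, h2⟩
          rw [← g3] at h3
          obtain ⟨u, v, h, hj⟩ := h3
          exact ⟨u, v, h, hj.symm⟩
      · intro u v h
        have := g4 u v h
        omega
    obtain ⟨x0, y0, hxy0⟩ : ∃ x0 y0 : inner T, (core T).Adj x0 y0 := by
      have h1 : (core T).edgeSet.Nonempty := by
        rw [← Set.ncard_pos (Set.toFinite _)]
        omega
      obtain ⟨e, he⟩ := h1
      induction e using Sym2.ind with
      | _ u v => exact ⟨u, v, he⟩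
    have h2 : ∀ x ∈ inner T, 2 ≤ leaves T x := by
      intro x hx
      have h := hneed x hx
      unfold need at h
      rw [if_pos hbal] at h
      exact h
    have hcl' : ∀ β : Bool, innerClass T c β ≤ innerClass T c (!β) + 1 := by
      intro β
      cases β <;> cases b <;> simp only [Bool.not_true, Bool.not_false] at hbal hcl ⊢ <;> omega
    refine (Pool.Agent.Results.MP_128071_co.TwoLeavesEach.result V T hT
      ⟨x0, y0, hxy0, x0.2, y0.2⟩ (Or.inl ⟨h2, ?_⟩) (Or.inl ⟨Or.inl ⟨p₀, f₀, hα₀⟩, hpar⟩)).1
    intro c' hc' b'
    have key : ∀ γ : Bool, (∀ x, c' x = b' ↔ c x = γ) →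
        innerClass T c' b' ≤ innerClass T c' (!b') + 1 := by
      intro γ hγ
      have e1 : innerClass T c' b' = innerClass T c γ := by
        unfold innerClass
        simp only [hγ]
      have e2 : innerClass T c' (!b') = innerClass T c (!γ) := by
        unfold innerClass
        have : ∀ x, c' x = (!b') ↔ c x = (!γ) := by
          intro x
          have h := hγ x
          revert h
          cases c' x <;> cases b' <;> cases c x <;> cases γ <;> simp
        simp only [this]
      rw [e1, e2]
      exact hcl' γ
    rcases two_colourings hT.1 c' b' hc' (fun x => c x = b') (fun u v h => by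
      have := hc u v h
      revert this
      cases c u <;> cases c v <;> cases b' <;> simp) with h | h
    · exact key b' h
    · refine key (!b') (fun x => ?_)
      rw [h x]
      cases c x <;> cases b' <;> simp
  · refine (hN₁ V T hT hN1 hl ⟨c, b, hc, hcl, ?_, ?_⟩ hpar).1
    · intro x hx hxb
      have h := hneed x hx
      unfold need at h
      rw [if_neg hbal, if_pos hxb] at h
      exact h
    · intro x hx hxb
      have h := hneed x hx
      unfold need at h
      rw [if_neg hbal, if_neg hxb] at h
      exact h

/-- **Leaf deficits with absolute constants.** For every `l` there is an `N` such that the following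
holds for every finite tree `T` with at least `N` non-leaves such that the tree of the non-leaves has
at most `l` leaves, and every proper colouring `c` for which at least half of the non-leaves have the
colour `b`. Let `need x = 2` if the numbers of the non-leaves of the two colours differ by at most
`1`, and otherwise `need x = 3` if `x` has the colour `b` and `need x = 4` if not. Then for every
non-leaf `x₀` there is `ε ≤ 1` such that the tree `T` with `need x - leaves x` (truncated at `0`) new
leaves at every non-leaf `x` and `ε` further ones at `x₀` is graceful, and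
`γ(T) ≤ |E(T)| + ∑ x, (need x - leaves x) + 1`. -/
theorem result (l : ℕ) : ∃ N : ℕ, ∀ (V : Type) [Fintype V] (T : SimpleGraph V), T.IsTree →
    N ≤ (inner T).ncard → coreLeaves T ≤ l →
    ∀ (c : V → Bool) (b : Bool), Proper T c → innerClass T c (!b) ≤ innerClass T c b →
    (∀ x₀ ∈ inner T, ∃ ε ≤ 1, (addLeaves T (extra T c b x₀ ε)).IsTree ∧
      Graceful (addLeaves T (extra T c b x₀ ε)) ∧
      (addLeaves T (extra T c b x₀ ε)).edgeSet.ncard =
        T.edgeSet.ncard + ∑ᶠ x : inner T, (need T c b x - leaves T x) + ε) ∧
    gamma T ∈ gracefulSizes T ∧ T.edgeSet.ncard ≤ gamma T ∧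
    gamma T ≤ T.edgeSet.ncard + ∑ᶠ x : inner T, (need T c b x - leaves T x) + 1 := by
  classical
  obtain ⟨N, hN⟩ := exact l
  refine ⟨max N 1, ?_⟩
  intro V _ T hT hNT hl c b hc hcl
  have hN0 : N ≤ (inner T).ncard := le_trans (le_max_left _ _) hNT
  have hN1 : 1 ≤ (inner T).ncard := le_trans (le_max_right _ _) hNT
  have main : ∀ k : V → ℕ, (∀ x, x ∉ inner T → k x = 0) →
      (∀ x ∈ inner T, need T c b x ≤ leaves T x + k x) →
      Odd (Fintype.card V + ∑ x, k x) →
      (addLeaves T k).IsTree ∧ Graceful (addLeaves T k) ∧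
        (addLeaves T k).edgeSet.ncard = T.edgeSet.ncard + ∑ x, k x := by
    intro k hk hkn hodd
    obtain ⟨t1, t2⟩ := Pool.Agent.Run7.h419.GW.Add.tree hT k
    have hcardW : Fintype.card (V ⊕ (Σ x : V, Fin (k x))) = Fintype.card V + ∑ x, k x := by
      rw [Fintype.card_sum, Fintype.card_sigma]
      simp
    obtain ⟨β, hβ⟩ := Pool.Agent.Run7.h419.GW.Add.even_class
      (Pool.Agent.Run7.h419.GW.Add.colour k c) (by rw [hcardW]; exact hodd)
    refine ⟨t1, ?_, t2⟩
    refine hN _ (addLeaves T k) t1
      (by rw [Pool.Agent.Run7.h419.GW.Add.ncard_inner hk]; exact hN0)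
      (by rw [Pool.Agent.Run7.h419.GW.Add.coreLeaves_add hk]; exact hl)
      (Pool.Agent.Run7.h419.GW.Add.colour k c) b
      (Pool.Agent.Run7.h419.GW.Add.proper hc) ?_ ?_
      ⟨_, β, Pool.Agent.Run7.h419.GW.Add.proper hc, hβ⟩
    · rw [Pool.Agent.Run7.h419.GW.Add.innerClass_eq hk,
        Pool.Agent.Run7.h419.GW.Add.innerClass_eq hk]
      exact hcl
    · intro z hz
      match z, hz with
      | Sum.inl x, hz =>
        have hx : x ∈ inner T := (Pool.Agent.Run7.h419.GW.Add.mem_inl hk x).1 hz
        rw [Pool.Agent.Run7.h419.GW.Add.leaves_inl hk]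
        have h := hkn x hx
        unfold need at h ⊢
        rw [Pool.Agent.Run7.h419.GW.Add.innerClass_eq hk,
          Pool.Agent.Run7.h419.GW.Add.innerClass_eq hk]
        exact h
      | Sum.inr p, hz => exact absurd hz (Pool.Agent.Run7.h419.GW.Add.not_mem_inr p)
  obtain ⟨x1, hx1⟩ : (inner T).Nonempty := by
    rw [Set.nonempty_iff_ne_empty]
    intro h
    rw [h, Set.ncard_empty] at hN1
    omega
  have hsum : ∀ x₀ ∈ inner T, ∀ ε, ∑ x, extra T c b x₀ ε x =
      ∑ᶠ x : inner T, (need T c b x - leaves T x) + ε := by
    intro x₀ hx₀ ε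
    have h1 : ∑ᶠ x : inner T, (need T c b x - leaves T x) =
        ∑ᶠ x ∈ inner T, (need T c b x - leaves T x) :=
      finsum_set_coe_eq_finsum_mem (f := fun x => need T c b x - leaves T x) (inner T)
    have h2 : ∀ x, extra T c b x₀ ε x =
        (if x ∈ inner T then need T c b x - leaves T x else 0) + (if x = x₀ then ε else 0) := by
      intro x
      unfold extra
      by_cases hx : x ∈ inner T
      · rw [if_pos hx, if_pos hx]
      · have : x ≠ x₀ := fun h => hx (h ▸ hx₀)
        rw [if_neg hx, if_neg hx, if_neg this]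
    rw [h1, finsum_mem_eq_finite_toFinset_sum _ (Set.toFinite (inner T)),
      Finset.sum_congr rfl (fun x _ => h2 x), Finset.sum_add_distrib,
      Finset.sum_ite_eq' Finset.univ x₀, if_pos (Finset.mem_univ _),
      Finset.sum_ite, Finset.sum_const_zero, add_zero]
    congr 1
    refine Finset.sum_congr ?_ (fun _ _ => rfl)
    ext x
    simp
  have hgr : ∀ x₀ ∈ inner T, ∃ ε ≤ 1, (addLeaves T (extra T c b x₀ ε)).IsTree ∧
      Graceful (addLeaves T (extra T c b x₀ ε)) ∧
      (addLeaves T (extra T c b x₀ ε)).edgeSet.ncard =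
        T.edgeSet.ncard + ∑ᶠ x : inner T, (need T c b x - leaves T x) + ε := by
    intro x₀ hx₀
    have h1 : ∀ ε, ∀ x, x ∉ inner T → extra T c b x₀ ε x = 0 := by
      intro ε x hx
      unfold extra
      rw [if_neg hx]
    have h2 : ∀ ε, ∀ x ∈ inner T, need T c b x ≤ leaves T x + extra T c b x₀ ε x := by
      intro ε x hx
      unfold extra
      rw [if_pos hx]
      omega
    have h3 : ∀ ε, Odd (Fintype.card V + (∑ᶠ x : inner T, (need T c b x - leaves T x) + ε)) →
        (addLeaves T (extra T c b x₀ ε)).IsTree ∧
        Graceful (addLeaves T (extra T c b x₀ ε)) ∧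
        (addLeaves T (extra T c b x₀ ε)).edgeSet.ncard =
          T.edgeSet.ncard + ∑ᶠ x : inner T, (need T c b x - leaves T x) + ε := by
      intro ε hodd
      obtain ⟨t1, t2, t3⟩ := main (extra T c b x₀ ε) (h1 ε) (h2 ε)
        (by rw [hsum x₀ hx₀ ε]; exact hodd)
      refine ⟨t1, t2, ?_⟩
      rw [t3, hsum x₀ hx₀ ε, add_assoc]
    rcases Nat.even_or_odd
      (Fintype.card V + ∑ᶠ x : inner T, (need T c b x - leaves T x)) with h | h
    · exact ⟨1, le_refl 1, h3 1 (by rw [← add_assoc]; exact h.add_one)⟩
    · exact ⟨0, Nat.zero_le 1, h3 0 (by rw [add_zero]; exact h)⟩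
  obtain ⟨ε, hε, t1, t2, t3⟩ := hgr x1 hx1
  have hs : T.edgeSet.ncard + ∑ᶠ x : inner T, (need T c b x - leaves T x) + ε ∈
      gracefulSizes T :=
    ⟨_, inferInstance, addLeaves T (extra T c b x1 ε), t1, t2,
      Pool.Agent.Run7.h419.GW.Add.contains T _, t3⟩
  have hmem : gamma T ∈ gracefulSizes T := Nat.sInf_mem ⟨_, hs⟩
  refine ⟨hgr, hmem, le_of_mem hmem, (Nat.sInf_le hs).trans ?_⟩
  omega

end Pool.Agent.Results.MP_128071_co.SmallDeficits
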