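import Pool.Agent.H336.GW.Path
import Pool.Agent.Run7.h419.GW.Main

/-!
# The smallest graceful tree containing a given tree: `γ(T) = |E(T)|` if the non-leaves form a tree
with an `α`-labelling and each of them has at least two leaves

Let `T` be a tree each of whose non-leaves is adjacent to at least two leaves, in arbitrary numbers
(even or odd, different for different vertices). Suppose that the tree of the non-leaves has an
`α`-labelling (for instance, is a caterpillar: then `T` is a lobster) whose two classes differ in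
size by at most one. If one of the two colour classes of `T` has an even number of vertices, or if
the parity weight of one of the `α`-labellings is even, then `T` is graceful. The same holds for
unbalanced classes if the numbers of the leaves are larger.
-/

set_option autoImplicit false

namespace Pool.Agent.Results.MP_128071_co.TwoLeavesEach

open Finset

/-- A graph with `m` edges is graceful if there is an injective map `f` of the vertices to
`{0, 1, …, m}` such that the edge labels `|f u - f v|` are pairwise distinct. -/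
def Graceful {V : Type} (T : SimpleGraph V) : Prop :=
  ∃ f : V → ℕ, Function.Injective f ∧ (∀ v, f v ≤ T.edgeSet.ncard) ∧
    ∀ u v u' v', T.Adj u v → T.Adj u' v' →
      Int.natAbs ((f u : ℤ) - (f v : ℤ)) = Int.natAbs ((f u' : ℤ) - (f v' : ℤ)) →
      s(u, v) = s(u', v')

/-- The numbers of edges of the finite graceful trees which have a subgraph isomorphic to `T`. -/
def gracefulSizes {V : Type} (T : SimpleGraph V) : Set ℕ :=
  {k | ∃ (W : Type) (_ : Fintype W) (T' : SimpleGraph W),
    T'.IsTree ∧ Graceful T' ∧ T.IsContained T' ∧ T'.edgeSet.ncard = k}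

/-- `γ(T)`: the least number of edges of a graceful tree which has a subgraph isomorphic to `T`. -/
noncomputable def gamma {V : Type} (T : SimpleGraph V) : ℕ := sInf (gracefulSizes T)

/-- the vertices which are not leaves -/
def inner {V : Type} (T : SimpleGraph V) : Set V := {x | 2 ≤ (T.neighborSet x).ncard}

/-- the tree of the non-leaves -/
def core {V : Type} (T : SimpleGraph V) : SimpleGraph (inner T) := T.induce (inner T)

/-- the number of the leaves adjacent to `x` -/
noncomputable def leaves {V : Type} (T : SimpleGraph V) (x : V) : ℕ :=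
  {y | T.Adj x y ∧ y ∉ inner T}.ncard

/-- `f` is an `α`-labelling of `G` with the threshold `θ`: a graceful labelling such that exactly
one end of every edge has a label less than `θ`. -/
def IsAlpha {W : Type} (G : SimpleGraph W) (θ : ℕ) (f : W → ℕ) : Prop :=
  Function.Injective f ∧ (∀ x, f x ≤ G.edgeSet.ncard) ∧
    (∀ u v u' v', G.Adj u v → G.Adj u' v' →
      Int.natAbs ((f u : ℤ) - (f v : ℤ)) = Int.natAbs ((f u' : ℤ) - (f v' : ℤ)) →
      s(u, v) = s(u', v')) ∧
    ∀ u v, G.Adj u v → (f u < θ ↔ ¬ f v < θ)

/-- `c` is a proper colouring of `T` with the two colours `true` and `false` -/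
def Proper {V : Type} (T : SimpleGraph V) (c : V → Bool) : Prop := ∀ u v, T.Adj u v → c u ≠ c v

/-- The parity weight of a labelling `f` of the non-leaves with the threshold `θ`: the sum, over the
non-leaves, of the number of their leaves times the distance of their label from the nearest label
of their own class next to the threshold, plus the product of the total numbers of the leaves at the
non-leaves with labels below and not below the threshold. -/
noncomputable def weight {V : Type} (T : SimpleGraph V) (θ : ℕ) (f : inner T → ℕ) : ℕ :=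
  (∑ᶠ x : inner T, leaves T x * (if f x < θ then θ - 1 - f x else f x - θ)) +
    (∑ᶠ x : inner T, if f x < θ then leaves T x else 0) *
    (∑ᶠ x : inner T, if f x < θ then 0 else leaves T x)

/-- The number of the non-leaves of colour `b`. -/
noncomputable def innerClass {V : Type} (T : SimpleGraph V) (c : V → Bool) (b : Bool) : ℕ :=
  {x | x ∈ inner T ∧ c x = b}.ncard

theorem le_of_mem {V : Type} {T : SimpleGraph V} {k : ℕ}
    (hk : k ∈ gracefulSizes T) : T.edgeSet.ncard ≤ k := by
  classical
  obtain ⟨W, _, T', _, _, ⟨φ⟩, rfl⟩ := hk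
  have hinj : Function.Injective φ := φ.injective
  have h1 : Sym2.map φ '' T.edgeSet ⊆ T'.edgeSet := by
    rintro _ ⟨e, he, rfl⟩
    induction e using Sym2.ind with
    | _ x y =>
      rw [Sym2.map_mk, SimpleGraph.mem_edgeSet]
      exact φ.toHom.map_adj ((SimpleGraph.mem_edgeSet T).1 he)
  calc T.edgeSet.ncard = (Sym2.map φ '' T.edgeSet).ncard :=
        (Set.ncard_image_of_injective _ (Sym2.map.injective hinj)).symm
    _ ≤ T'.edgeSet.ncard := Set.ncard_le_ncard h1 (Set.toFinite _)

/-- two proper colourings of a connected graph are equal or opposite -/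
theorem two_colourings {W : Type} {G : SimpleGraph W} (hG : G.Connected) (col : W → Bool)
    (b : Bool) (hc : ∀ u v, G.Adj u v → col u ≠ col v) (P : W → Prop)
    (hP : ∀ u v, G.Adj u v → (P u ↔ ¬ P v)) :
    (∀ x, col x = b ↔ P x) ∨ (∀ x, col x = b ↔ ¬ P x) := by
  have h1 : ∀ u v, G.Adj u v → ((col u = b ↔ P u) ↔ (col v = b ↔ P v)) := by
    intro u v h
    have h2 := hc u v h
    have h3 := hP u v h
    have h4 : col u = b ↔ ¬ col v = b := by
      revert h2
      cases col u <;> cases col v <;> cases b <;> simp
    tauto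
  have h2 : ∀ u v, G.Walk u v → ((col u = b ↔ P u) ↔ (col v = b ↔ P v)) := by
    intro u v w
    induction w with
    | nil => rfl
    | cons h _ ih => exact (h1 _ _ h).trans ih
  obtain ⟨x0⟩ := hG.nonempty
  by_cases h3 : (col x0 = b ↔ P x0)
  · left
    intro x
    obtain ⟨w⟩ := hG.preconnected x0 x
    exact (h2 _ _ w).1 h3
  · right
    intro x
    obtain ⟨w⟩ := hG.preconnected x0 x
    have := (h2 _ _ w).not.1 h3
    tauto

/-- an `α`-labelling whose lower class is a given class -/
theorem alpha_both {W : Type} {G : SimpleGraph W} (hG : G.Connected) {θ : ℕ} {f : W → ℕ}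
    (hα : IsAlpha G θ f) (col : W → Bool) (b : Bool) (hcol : ∀ u v, G.Adj u v → col u ≠ col v) :
    ∃ (θ : ℕ) (f : W → ℕ), IsAlpha G θ f ∧ ∀ x, col x = b ↔ f x < θ := by
  obtain ⟨f1, f2, f3, f4⟩ := hα
  rcases two_colourings hG col b hcol (fun x => f x < θ) f4 with h | h
  · exact ⟨θ, f, ⟨f1, f2, f3, f4⟩, h⟩
  · refine ⟨G.edgeSet.ncard + 1 - θ, fun x => G.edgeSet.ncard - f x, ⟨?_, ?_, ?_, ?_⟩, ?_⟩
    · intro x y hxy
      have hx := f2 x
      have hy := f2 y
      simp only at hxy
      exact f1 (by omega)
    · intro x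
      exact Nat.sub_le _ _
    · intro u v u' v' huv huv' he
      have h1 := f2 u
      have h2 := f2 v
      have h3 := f2 u'
      have h4 := f2 v'
      refine f3 u v u' v' huv huv' ?_
      simp only at he
      omega
    · intro u v huv
      have h1 := f2 u
      have h2 := f2 v
      have h3 := f4 u v huv
      show G.edgeSet.ncard - f u < G.edgeSet.ncard + 1 - θ ↔
        ¬ G.edgeSet.ncard - f v < G.edgeSet.ncard + 1 - θ
      omega
    · intro x
      have hx := f2 x
      rw [h x]
      show ¬ f x < θ ↔ G.edgeSet.ncard - f x < G.edgeSet.ncard + 1 - θ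
      omega

theorem count {V : Type} [Finite V] {T : SimpleGraph V} (f : inner T → ℕ)
    (f1 : Function.Injective f) (k : ℕ) (hk : ∀ t, t < k ↔ ∃ x, f x = t) (Q : ℕ → Prop)
    (R : Finset ℕ) (hR : ∀ t, t ∈ R ↔ t < k ∧ Q t) (P : V → Prop)
    (hP : ∀ x : inner T, P x ↔ Q (f x)) : {x | x ∈ inner T ∧ P x}.ncard = R.card := by
  rw [← Set.ncard_coe_finset]
  refine Set.ncard_congr (fun x hx => f ⟨x, hx.1⟩) ?_ ?_ ?_
  · intro x hx
    rw [Finset.mem_coe, hR]
    exact ⟨(hk _).2 ⟨_, rfl⟩, (hP ⟨x, hx.1⟩).1 hx.2⟩
  · intro x y hx hy h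
    exact congrArg Subtype.val (f1 h)
  · intro t ht
    rw [Finset.mem_coe, hR] at ht
    obtain ⟨⟨x, hx⟩, hxt⟩ := (hk t).1 ht.1
    exact ⟨x, ⟨hx, (hP ⟨x, hx⟩).2 (by rw [hxt]; exact ht.2)⟩, hxt⟩

/-- **Trees whose non-leaves have at least two leaves each.** Let `T` be a finite tree with at least
two non-leaves. Suppose that

(numbers of leaves)
* every non-leaf is adjacent to at least two leaves, and the numbers of the non-leaves of the two
  colours differ by at most one; or
* for some `r ≥ 1` and some colour `b`, every non-leaf of colour `b` is adjacent to at least three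
  leaves, every other non-leaf is adjacent to at least `2 r + 1` leaves, and the numbers `A` of the
  non-leaves of colour `b` and `B` of the other non-leaves satisfy `B ≤ A ≤ r (B - 1) + 2`;

(parity)
* the tree of the non-leaves has an `α`-labelling or is a caterpillar (its non-leaves form a path),
  and one of the two colour classes of `T` has an even number of vertices; or
* the tree of the non-leaves has an `α`-labelling with an even parity weight.

Then `T` is graceful and `γ(T) = |E(T)|`: `T` is a smallest graceful tree containing `T`. -/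
theorem result (V : Type) [Fintype V] (T : SimpleGraph V) (hT : T.IsTree)
    (h1 : ∃ x y, T.Adj x y ∧ x ∈ inner T ∧ y ∈ inner T)
    (h2 : ((∀ x ∈ inner T, 2 ≤ leaves T x) ∧
        ∀ c : V → Bool, Proper T c → ∀ b : Bool, innerClass T c b ≤ innerClass T c (!b) + 1) ∨
      ∃ (r : ℕ) (c : V → Bool) (b : Bool), 1 ≤ r ∧ Proper T c ∧
        (∀ x ∈ inner T, c x = b → 3 ≤ leaves T x) ∧
        (∀ x ∈ inner T, c x ≠ b → 2 * r + 1 ≤ leaves T x) ∧
        innerClass T c (!b) ≤ innerClass T c b ∧
        innerClass T c b + r ≤ r * innerClass T c (!b) + 2)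
    (h3 : (((∃ θ f, IsAlpha (core T) θ f) ∨
          ∃ n, Nonempty (core (core T) ≃g SimpleGraph.pathGraph n)) ∧
        ∃ (c : V → Bool) (b : Bool), Proper T c ∧ Even {v | c v = b}.ncard) ∨
      ∃ θ f, IsAlpha (core T) θ f ∧ Even (weight T θ f)) :
    Graceful T ∧ T.edgeSet.ncard ∈ gracefulSizes T ∧ gamma T = T.edgeSet.ncard := by
  classical
  have hne : (inner T).Nonempty := by
    obtain ⟨x, y, -, hx, -⟩ := h1
    exact ⟨x, hx⟩
  have hG : (core T).IsTree := Pool.Agent.H336.GW.induce_tree hT hne
  have hcard : 1 ≤ (core T).edgeSet.ncard := by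
    obtain ⟨x, y, hxy, hx, hy⟩ := h1
    exact (Set.ncard_pos (Set.toFinite _)).2 ⟨s(⟨x, hx⟩, ⟨y, hy⟩), hxy⟩
  have hFin : Fintype (inner T) := Fintype.ofFinite _
  have hke : (core T).edgeSet.ncard + 1 = Fintype.card (inner T) :=
    Pool.Agent.H336.GW.edges_card hG
  -- the core of the proof, for a given labelling
  have key : ∀ (θ : ℕ) (f : inner T → ℕ), IsAlpha (core T) θ f →
      (Even (weight T θ f) ∨ ∃ (c : V → Bool) (b : Bool), Proper T c ∧
        (∀ x : inner T, c x = b ↔ f x < θ) ∧ Even {v | c v = b}.ncard) → Graceful T := by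
    intro θ f hα hpar
    obtain ⟨f1, f2, f3, f4⟩ := hα
    obtain ⟨x0, y0, h0, hx0, hy0⟩ := h1
    set k := Fintype.card (inner T) with hkdef
    have f2' : ∀ x, f x < k := fun x => by have := f2 x; omega
    have fsur : ∀ t < k, ∃ x, f x = t := by
      intro t ht
      have h1 := Finset.surjOn_of_injOn_of_card_le (s := (Finset.univ : Finset (inner T)))
        (t := Finset.range k) f (fun x _ => by simpa using f2' x) (f1.injOn) (by
          rw [Finset.card_range, Finset.card_univ])
      obtain ⟨x, -, hx⟩ := h1 (show t ∈ ((Finset.range k : Finset ℕ) : Set ℕ) by simpa using ht)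
      exact ⟨x, hx⟩
    have hk' : ∀ t, t < k ↔ ∃ x, f x = t := by
      intro t
      constructor
      · exact fsur t
      · rintro ⟨x, rfl⟩
        exact f2' x
    have hθ : 1 ≤ θ ∧ θ < k := by
      have h3 := f4 ⟨x0, hx0⟩ ⟨y0, hy0⟩ h0
      have h4 := f2' ⟨x0, hx0⟩
      have h5 := f2' ⟨y0, hy0⟩
      omega
    obtain ⟨a, rfl⟩ : ∃ a, θ = a + 1 := ⟨θ - 1, by omega⟩
    obtain ⟨q, hq⟩ : ∃ q, k = a + 1 + q + 1 := ⟨k - a - 2, by omega⟩
    -- the class sizes
    have cl : ∀ (c : V → Bool) (b : Bool), Proper T c →
        ((∀ x : inner T, c x = b ↔ f x < a + 1) ∧ innerClass T c b = a + 1 ∧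
          innerClass T c (!b) = q + 1) ∨
        ((∀ x : inner T, c x = b ↔ ¬ f x < a + 1) ∧ innerClass T c b = q + 1 ∧
          innerClass T c (!b) = a + 1) := by
      intro c b hc
      have hne : ∀ β γ : Bool, β = !γ ↔ ¬ β = γ := by decide
      rcases two_colourings hG.1 (fun x => c x) b (fun u v h => hc u v h)
        (fun x => f x < a + 1) f4 with h | h
      · refine Or.inl ⟨h, ?_, ?_⟩
        · unfold innerClass
          rw [count f f1 k hk' (fun t => t < a + 1) (Finset.range (a + 1)) (fun t => by
            rw [Finset.mem_range]; omega) (fun v => c v = b) h, Finset.card_range]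
        · unfold innerClass
          rw [count f f1 k hk' (fun t => ¬ t < a + 1) (Finset.Ico (a + 1) (a + 1 + (q + 1)))
            (fun t => by rw [Finset.mem_Ico]; omega) (fun v => c v = !b) (fun x => by
              rw [hne, h x]), Nat.card_Ico]
          omega
      · refine Or.inr ⟨h, ?_, ?_⟩
        · unfold innerClass
          rw [count f f1 k hk' (fun t => ¬ t < a + 1) (Finset.Ico (a + 1) (a + 1 + (q + 1)))
            (fun t => by rw [Finset.mem_Ico]; omega) (fun v => c v = b) h, Nat.card_Ico]
          omega
        · unfold innerClass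
          rw [count f f1 k hk' (fun t => t < a + 1) (Finset.range (a + 1)) (fun t => by
            rw [Finset.mem_range]; omega) (fun v => c v = !b) (fun x => by
              rw [hne, h x, not_not]), Finset.card_range]
    refine @Pool.Agent.Run7.h419.GW.main V _ T hT ⟨x0, y0, h0, hx0, hy0⟩ hFin f a q f1 f2 f4 f3
      hq ?_ ?_
    · rcases h2 with ⟨e1, e2⟩ | ⟨r, c, b, hr, hc, e1, e2, e3, e4⟩
      · left
        obtain ⟨c, hc⟩ : ∃ c : V → Bool, Proper T c := by
          have C := hT.coloringTwo
          refine ⟨fun v => decide (C v = 0), fun u v h => ?_⟩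
          have h3 := C.valid h
          intro h1
          apply h3
          have h4 := decide_eq_decide.1 h1
          generalize C u = i at *
          generalize C v = j at *
          revert i j
          decide
        have g1 := e2 c hc true
        have g2 := e2 c hc false
        rcases cl c true hc with ⟨-, g3, g4⟩ | ⟨-, g3, g4⟩
        · rw [Bool.not_true] at g1 g4
          rw [Bool.not_false] at g2
          exact ⟨by omega, by omega, fun x => e1 x x.2⟩
        · rw [Bool.not_true] at g1 g4
          rw [Bool.not_false] at g2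
          exact ⟨by omega, by omega, fun x => e1 x x.2⟩
      · right
        refine ⟨r, hr, ?_⟩
        have hmul : ∀ m, r * (m + 1) = r * m + r := fun m => by ring
        rcases cl c b hc with ⟨g1, g3, g4⟩ | ⟨g1, g3, g4⟩
        · rw [g3, g4] at e3 e4
          rw [hmul] at e4
          exact Or.inl ⟨by omega, by omega, fun x hx => e1 x x.2 ((g1 x).2 hx),
            fun x hx => e2 x x.2 (fun h => hx ((g1 x).1 h))⟩
        · rw [g3, g4] at e3 e4
          rw [hmul] at e4
          exact Or.inr ⟨by omega, by omega, fun x hx => e1 x x.2 ((g1 x).2 hx),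
            fun x hx => e2 x x.2 (fun h => (g1 x).1 h hx)⟩
    · rcases hpar with h | ⟨c, b, hc, hcf, hev⟩
      · left
        unfold weight at h
        rw [@finsum_eq_sum_of_fintype _ _ _ hFin, @finsum_eq_sum_of_fintype _ _ _ hFin,
          @finsum_eq_sum_of_fintype _ _ _ hFin] at h
        exact h
      · exact Or.inr ⟨c, b, hc, hcf, hev⟩
  have hg : Graceful T := by
    rcases h3 with ⟨h3, c, b, hc, hev⟩ | ⟨θ, f, hf, hw⟩
    · rcases h3 with ⟨θ, f, hf⟩ | ⟨n, ⟨e⟩⟩
      · obtain ⟨θ', f', hf', hcf⟩ := alpha_both hG.1 hf (fun x => c x) b (fun u v h => hc u v h)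
        exact key θ' f' hf' (Or.inr ⟨c, b, hc, hcf, hev⟩)
      · obtain ⟨θ, f, f1, f2, f3, f4⟩ := Pool.Agent.H336.GW.exists_alpha hG hcard n e
          (fun x => c x) b (fun u v h => hc u v h)
        refine key θ f ⟨f1, f2, f4, ?_⟩ (Or.inr ⟨c, b, hc, f3, hev⟩)
        intro u v h
        rw [← f3, ← f3]
        have h5 := hc u v h
        revert h5
        show c u ≠ c v → (c u = b ↔ ¬ c v = b)
        cases c u <;> cases c v <;> cases b <;> simp
    · exact key θ f hf (Or.inl hw)
  have hm : T.edgeSet.ncard ∈ gracefulSizes T :=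
    ⟨V, inferInstance, T, hT, hg, SimpleGraph.IsContained.refl T, rfl⟩
  exact ⟨hg, hm, le_antisymm (Nat.sInf_le hm) (le_of_mem (Nat.sInf_mem ⟨_, hm⟩))⟩

end Pool.Agent.Results.MP_128071_co.TwoLeavesEach
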